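import Pool.Agent.Lib.Helper22.Packing

/-! The sixteen balls of the proof of S12643 as a plain statement, extra far away balls, and the
passage to higher dimensions. -/

set_option autoImplicit false

namespace Pool.Agent.Lib.H22I

open Pool.Agent.Lib.Helper22

/-- Centres indexed by the disjoint sum. -/
noncomputable def pt (x : E) : Fin 8 ⊕ Fin 8 → EuclideanSpace ℝ (Fin 3) :=
  Sum.elim (fun v => WithLp.toLp 2 (x.1 v)) (fun c => WithLp.toLp 2 (x.2 c))

/-- The stress attached to a weight on the forty contacts. -/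
def stress (φ : F) : Fin 8 ⊕ Fin 8 → Fin 8 ⊕ Fin 8 → ℝ
  | .inl _, .inl _ => 0
  | .inl v, .inr c => ∑ s, if nb v s = c then φ v s else 0
  | .inr c, .inl v => ∑ s, if nb v s = c then φ v s else 0
  | .inr _, .inr _ => 0

theorem stress_symm (φ : F) (i j : Fin 8 ⊕ Fin 8) : stress φ i j = stress φ j i := by
  rcases i with v | c <;> rcases j with w | d <;> rfl

theorem nb_injective (v : Fin 8) : Function.Injective (nb v) := by
  revert v
  decide

theorem stress_nb (φ : F) (v : Fin 8) (s : Fin 5) : stress φ (.inl v) (.inr (nb v s)) = φ v s := by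
  simp only [stress]
  rw [Finset.sum_eq_single s]
  · simp
  · intro t _ ht
    rw [if_neg]
    intro h
    exact ht (nb_injective v h)
  · simp

theorem dist_pt_sq (a b : Fin 3 → ℝ) :
    dist (WithLp.toLp 2 a : EuclideanSpace ℝ (Fin 3)) (WithLp.toLp 2 b)
      = Real.sqrt (∑ k, (a k - b k) ^ 2) := by
  rw [EuclideanSpace.dist_eq]
  simp [Real.dist_eq, sq_abs]

theorem le_dist_of_sq (a b : Fin 3 → ℝ) (t : ℝ) (h : t ^ 2 ≤ ∑ k, (a k - b k) ^ 2) :
    t ≤ dist (WithLp.toLp 2 a : EuclideanSpace ℝ (Fin 3)) (WithLp.toLp 2 b) := by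
  rw [dist_pt_sq]
  exact Real.le_sqrt_of_sq_le h

theorem dist_eq_of_sq (a b : Fin 3 → ℝ) (t : ℝ) (ht : 0 ≤ t) (h : ∑ k, (a k - b k) ^ 2 = t ^ 2) :
    dist (WithLp.toLp 2 a : EuclideanSpace ℝ (Fin 3)) (WithLp.toLp 2 b) = t := by
  rw [dist_pt_sq, h, Real.sqrt_sq ht]

/-- A packing indexed by `ι` in a real inner product space, with algebraically independent radii
and a nonzero symmetric stress supported on the contacts. -/
def HasPack (ι : Type) [Fintype ι] (V : Type) [NormedAddCommGroup V] [NormedSpace ℝ V] : Prop :=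
  ∃ r : ι → ℝ, ∃ p : ι → V, ∃ ω : ι → ι → ℝ,
      (∀ i, 0 < r i) ∧
      AlgebraicIndependent ℚ r ∧
      (∀ i j, i ≠ j → r i + r j ≤ dist (p i) (p j)) ∧
      (∀ i j, ω i j = ω j i) ∧
      (∀ i j, ω i j ≠ 0 → i ≠ j ∧ dist (p i) (p j) = r i + r j) ∧
      (∃ i j, ω i j ≠ 0) ∧
      (∀ i, ∑ j, ω i j • (p j - p i) = 0)

theorem hasPack_base : HasPack (Fin 8 ⊕ Fin 8) (EuclideanSpace ℝ (Fin 3)) := by
  obtain ⟨x, ρ, hA, hg, hcon, φ, hφ, hann⟩ := exists_generic
  have hsum : ∀ v s, ∑ k, (x.1 v k - x.2 (nb v s) k) ^ 2 = (ρ (.inl v) + ρ (.inr (nb v s))) ^ 2 :=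
    hcon
  have hpack : ∀ i j, i ≠ j → ρ i + ρ j ≤ dist (pt x i) (pt x j) := by
    rintro (v | c) (w | d) hij
    · exact le_dist_of_sq _ _ _ (hg.pp v w (fun h => hij (by rw [h]))).le
    · apply le_dist_of_sq
      by_cases h : ∀ s, nb v s ≠ d
      · exact (hg.pc v d h).le
      · push Not at h
        obtain ⟨s, rfl⟩ := h
        exact (hsum v s).symm.le
    · rw [dist_comm, add_comm]
      apply le_dist_of_sq
      by_cases h : ∀ s, nb w s ≠ c
      · exact (hg.pc w c h).le
      · push Not at h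
        obtain ⟨s, rfl⟩ := h
        exact (hsum w s).symm.le
    · exact le_dist_of_sq _ _ _ (hg.cc c d (fun h => hij (by rw [h]))).le
  have hcontact : ∀ v c, stress φ (.inl v) (.inr c) ≠ 0 →
      dist (pt x (.inl v)) (pt x (.inr c)) = ρ (.inl v) + ρ (.inr c) := by
    intro v c h
    by_cases hc : ∀ s, nb v s ≠ c
    · exfalso
      apply h
      simp only [stress]
      apply Finset.sum_eq_zero
      intro s _
      rw [if_neg (hc s)]
    · push Not at hc
      obtain ⟨s, rfl⟩ := hc
      exact dist_eq_of_sq _ _ _ (add_pos (hg.pos _) (hg.pos _)).le (hsum v s)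
  have hsupp : ∀ i j, stress φ i j ≠ 0 → i ≠ j ∧ dist (pt x i) (pt x j) = ρ i + ρ j := by
    rintro (v | c) (w | d) h
    · exact absurd rfl h
    · exact ⟨by simp, hcontact v d h⟩
    · refine ⟨by simp, ?_⟩
      rw [dist_comm, add_comm]
      exact hcontact w c h
    · exact absurd rfl h
  have hnz : ∃ i j, stress φ i j ≠ 0 := by
    by_contra hcon'
    push Not at hcon'
    apply hφ
    funext v s
    rw [← stress_nb φ v s]
    exact hcon' _ _
  have heq : ∀ i, ∑ j, stress φ i j • (pt x j - pt x i) = 0 := by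
    rintro (v | c)
    · rw [Fintype.sum_sum_type]
      have h1 : ∑ w, stress φ (.inl v) (.inl w) • (pt x (.inl w) - pt x (.inl v)) = 0 := by
        apply Finset.sum_eq_zero
        intro w _
        simp [stress]
      rw [h1, zero_add]
      ext k
      have hl := equilibrium_left x φ hann v k
      simp only [stress, pt, Sum.elim_inl, Sum.elim_inr, WithLp.ofLp_sum, Finset.sum_apply,
        PiLp.smul_apply, PiLp.sub_apply, smul_eq_mul, PiLp.zero_apply, Finset.sum_mul]
      rw [Finset.sum_comm]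
      have h2 : ∀ s : Fin 5, ∑ c : Fin 8, (if nb v s = c then φ v s else 0) * (x.2 c k - x.1 v k)
          = - (φ v s * (x.1 v k - x.2 (nb v s) k)) := by
        intro s
        rw [Finset.sum_eq_single (nb v s)]
        · rw [if_pos rfl]; ring
        · intro b _ hb
          rw [if_neg (fun h => hb h.symm), zero_mul]
        · simp
      simp only [h2, Finset.sum_neg_distrib, hl, neg_zero]
    · rw [Fintype.sum_sum_type]
      have h1 : ∑ w, stress φ (.inr c) (.inr w) • (pt x (.inr w) - pt x (.inr c)) = 0 := by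
        apply Finset.sum_eq_zero
        intro w _
        simp [stress]
      rw [h1, add_zero]
      ext k
      have hr := equilibrium_right x φ hann c k
      simp only [stress, pt, Sum.elim_inl, Sum.elim_inr, WithLp.ofLp_sum, Finset.sum_apply,
        PiLp.smul_apply, PiLp.sub_apply, smul_eq_mul, PiLp.zero_apply, Finset.sum_mul, ite_mul,
        zero_mul]
      exact hr
  exact ⟨ρ, pt x, stress φ, fun i => hg.pos i, hA, hpack, stress_symm φ, hsupp, hnz, heq⟩

theorem hasPack_equiv {ι κ : Type} [Fintype ι] [Fintype κ] {V : Type} [NormedAddCommGroup V]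
    [NormedSpace ℝ V] (e : ι ≃ κ) (h : HasPack ι V) : HasPack κ V := by
  obtain ⟨r, p, ω, h1, h2, h3, h4, h5, h6, h7⟩ := h
  refine ⟨r ∘ e.symm, p ∘ e.symm, fun i j => ω (e.symm i) (e.symm j), ?_, ?_, ?_, ?_, ?_, ?_, ?_⟩
  · intro i
    exact h1 _
  · exact h2.comp _ e.symm.injective
  · intro i j hij
    exact h3 _ _ (fun h => hij (e.symm.injective h))
  · intro i j
    exact h4 _ _
  · intro i j h
    obtain ⟨g1, g2⟩ := h5 _ _ h
    exact ⟨fun h' => g1 (by rw [h']), g2⟩
  · obtain ⟨i, j, h⟩ := h6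
    exact ⟨e i, e j, by simpa using h⟩
  · intro i
    rw [← Equiv.sum_comp e]
    simp only [Function.comp_apply, Equiv.symm_apply_apply]
    exact h7 (e.symm i)

/-- One more positive radius, algebraically independent of the given ones. -/
theorem exists_radius {ι : Type} [Fintype ι] {r : ι → ℝ} (hr : AlgebraicIndependent ℚ r) :
    ∃ t : ℝ, 0 < t ∧ AlgebraicIndependent ℚ (fun o : Option ι => o.elim t r) := by
  have hc : Countable (Algebra.adjoin ℚ (Set.range r)) := by
    rw [Algebra.adjoin_range_eq_range_aeval]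
    have : Countable (MvPolynomial ι ℚ) := by
      have h := MvPolynomial.cardinalMk_le_max (σ := ι) (R := ℚ)
      rw [← Cardinal.mk_le_aleph0_iff]
      refine h.trans ?_
      simp
    exact Set.Countable.to_subtype (Set.countable_range _)
  have hcount : {x : ℝ | IsAlgebraic (Algebra.adjoin ℚ (Set.range r)) x}.Countable :=
    Algebraic.countable _ _
  have hnot : ¬ (Set.Ioi (0 : ℝ) ⊆ {x : ℝ | IsAlgebraic (Algebra.adjoin ℚ (Set.range r)) x}) := by
    intro hsub
    have h1 : (Set.Ioi (0 : ℝ)).Countable := hcount.mono hsub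
    have h2 : Cardinal.mk (Set.Ioi (0 : ℝ)) ≤ Cardinal.aleph0 :=
      Cardinal.le_aleph0_iff_set_countable.2 h1
    rw [Cardinal.mk_Ioi_real] at h2
    exact absurd h2 (not_le.2 Cardinal.aleph0_lt_continuum)
  obtain ⟨t, ht0, ht⟩ := Set.not_subset.1 hnot
  exact ⟨t, ht0, (hr.option_iff_transcendental t).2 ht⟩

/-- One more ball, far away from the others. -/
theorem hasPack_option {ι : Type} [Fintype ι] (h : HasPack ι (EuclideanSpace ℝ (Fin 3))) :
    HasPack (Option ι) (EuclideanSpace ℝ (Fin 3)) := by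
  obtain ⟨r, p, ω, h1, h2, h3, h4, h5, h6, h7⟩ := h
  obtain ⟨t, ht, hA⟩ := exists_radius h2
  set N : ℝ := (∑ i, (‖p i‖ + r i)) + t with hN
  have hle : ∀ i, ‖p i‖ + r i ≤ ∑ i, (‖p i‖ + r i) := fun i =>
    Finset.single_le_sum (f := fun i => ‖p i‖ + r i)
      (fun j _ => add_nonneg (norm_nonneg _) (h1 j).le) (Finset.mem_univ i)
  have hN0 : 0 ≤ N := add_nonneg
    (Finset.sum_nonneg fun j _ => add_nonneg (norm_nonneg _) (h1 j).le) ht.le
  set c : EuclideanSpace ℝ (Fin 3) := EuclideanSpace.single 0 N with hc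
  have hcn : ‖c‖ = N := by
    rw [hc, EuclideanSpace.norm_single, Real.norm_of_nonneg hN0]
  have hfar : ∀ i, r i + t ≤ dist (p i) c := by
    intro i
    have h8 : ‖c‖ ≤ ‖p i‖ + dist (p i) c := by
      have := norm_le_norm_add_norm_sub (p i) c
      rw [dist_eq_norm]
      have h9 : ‖c - p i‖ = ‖p i - c‖ := norm_sub_rev _ _
      linarith
    rw [hcn] at h8
    have := hle i
    linarith
  refine ⟨fun o => o.elim t r, fun o => o.elim c p,
    fun a b => a.elim 0 (fun i => b.elim 0 (fun j => ω i j)), ?_, hA, ?_, ?_, ?_, ?_, ?_⟩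
  · rintro (_ | i)
    · exact ht
    · exact h1 i
  · rintro (_ | i) (_ | j) hij
    · exact absurd rfl hij
    · simp only [Option.elim]
      rw [dist_comm, add_comm]
      exact hfar j
    · exact hfar i
    · exact h3 i j (fun h => hij (by rw [h]))
  · rintro (_ | i) (_ | j) <;> simp only [Option.elim]
    exact h4 i j
  · rintro (_ | i) (_ | j) hij <;> simp only [Option.elim, ne_eq, not_true_eq_false] at hij
    obtain ⟨g1, g2⟩ := h5 i j hij
    exact ⟨fun h => g1 (Option.some_injective _ h), g2⟩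
  · obtain ⟨i, j, h⟩ := h6
    exact ⟨some i, some j, h⟩
  · rintro (_ | i)
    · simp
    · rw [Fintype.sum_option]
      simpa using h7 i

theorem hasPack_three (n : ℕ) (hn : 16 ≤ n) : HasPack (Fin n) (EuclideanSpace ℝ (Fin 3)) := by
  induction n, hn using Nat.le_induction with
  | base => exact hasPack_equiv finSumFinEquiv hasPack_base
  | succ n _ ih => exact hasPack_equiv (finSuccEquiv n).symm (hasPack_option ih)

/-- Transport along a linear isometry. -/
theorem hasPack_isometry {ι : Type} [Fintype ι] {V W : Type} [NormedAddCommGroup V]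
    [NormedSpace ℝ V] [NormedAddCommGroup W] [NormedSpace ℝ W] (f : V →ₗᵢ[ℝ] W)
    (h : HasPack ι V) : HasPack ι W := by
  obtain ⟨r, p, ω, h1, h2, h3, h4, h5, h6, h7⟩ := h
  refine ⟨r, fun i => f (p i), ω, h1, h2, ?_, h4, ?_, h6, ?_⟩
  · intro i j hij
    rw [f.dist_map]
    exact h3 i j hij
  · intro i j hij
    rw [f.dist_map]
    exact h5 i j hij
  · intro i
    have := congrArg f (h7 i)
    simpa [map_sum] using this

/-- Zero padding of a vector of `ℝ^3`. -/
noncomputable def pad (d : ℕ) (hd : 3 ≤ d) :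
    EuclideanSpace ℝ (Fin 3) →ₗᵢ[ℝ] EuclideanSpace ℝ (Fin d) where
  toFun x := WithLp.toLp 2 (fun i : Fin d => if h : (i : ℕ) < 3 then x ⟨i, h⟩ else 0)
  map_add' x y := by
    ext i
    by_cases h : (i : ℕ) < 3 <;> simp [h]
  map_smul' c x := by
    ext i
    by_cases h : (i : ℕ) < 3 <;> simp [h]
  norm_map' x := by
    simp only [LinearMap.coe_mk, AddHom.coe_mk]
    rw [EuclideanSpace.norm_eq, EuclideanSpace.norm_eq]
    congr 1
    have hinj : Function.Injective (Fin.castLE hd) := Fin.castLE_injective hd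
    rw [← Finset.sum_subset (Finset.subset_univ (Finset.univ.map ⟨Fin.castLE hd, hinj⟩)),
      Finset.sum_map]
    · apply Finset.sum_congr rfl
      intro i _
      simp
    · intro i _ hi
      have h3 : ¬ ((i : ℕ) < 3) := by
        intro h
        apply hi
        rw [Finset.mem_map]
        exact ⟨⟨i, h⟩, Finset.mem_univ _, by ext; simp⟩
      simp [h3]

/-- For all `d ≥ 3` and `n ≥ 16`: a packing of `n` balls in `ℝ^d` with algebraically independent
radii and a nonzero stress. -/
theorem hasPack_all (d : ℕ) (hd : 3 ≤ d) (n : ℕ) (hn : 16 ≤ n) :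
    HasPack (Fin n) (EuclideanSpace ℝ (Fin d)) :=
  hasPack_isometry (pad d hd) (hasPack_three n hn)

end Pool.Agent.Lib.H22I
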